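import Pool.Agent.R322.AC1

/-!
# The Liouville function at the values of arbitrary polynomials times linear factors, the constant terms of which are
members of automatic sets

From the library: the theorem on correlations of nice functions along automatic shifts (`Pool.Agent.W93.AU`) and the
passage from one linear factor to tuples (`Pool.Agent.R501.CP`).
From Mathlib: `DFA ℕ σ`: the deterministic automata with the set of states `σ` and the alphabet `ℕ`; `M.accepts`: the set
of the words accepted by `M`; `Nat.digits b v`: the digits of `v` in base `b`, the least significant digit first;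
`ArithmeticFunction.cardFactors m`: the number of prime factors of `m` with multiplicity; `Finset.Icc u v`: the integers
`n` with `u ≤ n ≤ v`; `n ≡ r [ZMOD q]`: congruence modulo `q`; `Polynomial ℤ`: the polynomials with integer coefficients.
-/

set_option autoImplicit false

namespace Pool.Agent.Results.MP_892e4c_nt.AutomaticConstants

open Finset

/-- The Liouville function on the integers, `λ(-m) = λ(m)` and `λ(0) = 0`. -/
def lam (m : ℤ) : ℤ := if m = 0 then 0 else (-1) ^ ArithmeticFunction.cardFactors m.natAbs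

open Classical in
/-- The set of the integers `0 ≤ v < N` whose digits in base `b` (the least significant digit first) are accepted by the
automaton `M`. -/
noncomputable def autSet {σ : Type} (b : ℕ) (M : DFA ℕ σ) (N : ℕ) : Finset ℕ :=
  (range N).filter fun v => Nat.digits b v ∈ M.accepts

/-- The sum of `λ(F(n))` over the integers `n` with `u ≤ n ≤ v` and `n ≡ r mod q`, where `F` is the product of the
polynomial `f` and of the polynomials `α i T + a i`, `i ∈ I`. -/
noncomputable def lamSum {s : ℕ} (f : Polynomial ℤ) (α : Fin s → ℕ) (a : Fin s → ℤ) (I : Finset (Fin s)) (q : ℕ)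
    (r u v : ℤ) : ℤ :=
  ∑ n ∈ (Icc u v).filter (fun n => n ≡ r [ZMOD q]),
    lam ((f * ∏ i ∈ I, (Polynomial.C (α i : ℤ) * Polynomial.X + Polynomial.C (a i))).eval n)

/-- All the sums are small: for all `l`, all nonempty sets `I` of indices, all residue classes `r` modulo
`q ≤ log ^ κ N` and all integers `u`, `v` with `α i |u| ≤ B N` and `α i |v| ≤ B N` for all `i ∈ I`, the sum of `λ(F(n))`
over the `n` with `u ≤ n ≤ v` and `n ≡ r mod q` is at most `N / log ^ U N` in absolute value, where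
`F = f l * ∏ i ∈ I, (α i T + a i)`. -/
def Small (B κ U N : ℕ) {s L : ℕ} (f : Fin L → Polynomial ℤ) (α : Fin s → ℕ) (a : Fin s → ℤ) : Prop :=
  ∀ l, ∀ I : Finset (Fin s), I.Nonempty → ∀ q : ℕ, 1 ≤ q → (q : ℝ) ≤ Real.log N ^ κ → ∀ r u v : ℤ,
    (∀ i ∈ I, (α i : ℤ) * |u| ≤ B * N ∧ (α i : ℤ) * |v| ≤ B * N) →
    |((lamSum (f l) α a I q r u v : ℤ) : ℝ)| ≤ N / Real.log N ^ U

open Classical in
/-- Let `S 1, ..., S r` be automatic sets, `S j` the set of the integers `v ≥ 0` whose digits in base `b j` are accepted by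
the finite automaton `M j`. Suppose that the number of the elements of `S j` below `N` is not bounded by a power of
`log N`, for each `j`. Let `B`, `κ` and `U` be fixed, let `N` be large, and `2 ^ s ≤ log ^ κ N`. Let `α i ≥ 1` and
`γ i ≠ 0` with `|γ i| ≤ B` be arbitrary integers for `i < s`, let `t i ∈ {1, ..., r}`, let `f l`, where `l` ranges over at
most `log ^ κ N` indices, be arbitrary polynomials with integer coefficients (of any degree), and let `H` be an arbitrary
set of at most `log ^ κ N` vectors `c` of integers with `|c i| ≤ B N` (for bounded `s` for instance all the vectors within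
a power of `log N` of a given vector). Then all the tuples `(v 1, ..., v s)` with `v i ∈ S (t i)`, `v i < N`, up to a
proportion of `1 / log ^ U N` of them, have the following property: for ALL `c` in `H` the integers `a i = c i + γ i v i`
satisfy `|∑ λ(F(n))| ≤ N / log ^ U N` for all `l` and all nonempty sets `I` of indices, where
`F = f l * ∏ i ∈ I, (α i T + a i)`, the sum over the `n ≡ r mod q` in an arbitrary interval `[u, v]` with
`α i |u|, α i |v| ≤ B N` for all `i ∈ I`, for all residue classes `r` modulo all `q ≤ log ^ κ N`. -/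
theorem result {r : ℕ} (σ : Fin r → Type) [∀ j, Finite (σ j)] (b : Fin r → ℕ) (hb : ∀ j, 2 ≤ b j)
    (M : ∀ j, DFA ℕ (σ j))
    (hM : ∀ j, ∀ k : ℕ, ∃ᶠ N : ℕ in Filter.atTop, Real.log N ^ k < ((autSet (b j) (M j) N).card : ℝ)) (B κ U : ℕ) :
    ∃ N₀ : ℕ, ∀ N : ℕ, N₀ ≤ N → ∀ s L : ℕ, (2 : ℝ) ^ s ≤ Real.log N ^ κ → (L : ℝ) ≤ Real.log N ^ κ →
      ∀ (t : Fin s → Fin r) (γ : Fin s → ℤ), (∀ i, γ i ≠ 0 ∧ |γ i| ≤ B) →
      ∀ H : Finset (Fin s → ℤ), (H.card : ℝ) ≤ Real.log N ^ κ → (∀ c ∈ H, ∀ i, |c i| ≤ B * N) →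
      ∀ α : Fin s → ℕ, (∀ i, 1 ≤ α i) → ∀ f : Fin L → Polynomial ℤ,
        (((Fintype.piFinset fun i => autSet (b (t i)) (M (t i)) N).filter fun v =>
          ¬ ∀ c ∈ H, Small B κ U N f α (fun i => c i + γ i * v i)).card : ℝ) ≤
        (∏ i, ((autSet (b (t i)) (M (t i)) N).card : ℝ)) / Real.log N ^ U := by
  classical
  have inst : ∀ j, Fintype (σ j) := fun j => Fintype.ofFinite (σ j)
  have hset : ∀ (j : Fin r) (N : ℕ), autSet (b j) (M j) N = Pool.Agent.R322.AC.aset (b j) (M j) N := by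
    intro j N
    unfold autSet Pool.Agent.R322.AC.aset
    congr!
  obtain ⟨N₀, h0⟩ := Pool.Agent.R322.AC.aut_chowla σ b hb M (fun j k => (hM j k).mono fun N hN => by
    rw [hset] at hN
    exact hN) B (κ + 1) (U + κ + 2)
  obtain ⟨N1, h1⟩ := Pool.Agent.R501.CP.floor_log κ
  obtain ⟨N2, h2⟩ := Pool.Agent.R501.CP.floor_log U
  refine ⟨N₀ + N1 + N2, fun N hN s L hs hL t γ hγ H hHc hH α hα f => ?_⟩
  obtain ⟨k, hk⟩ : ∃ k, k = ⌊Real.log (N : ℝ)⌋₊ := ⟨_, rfl⟩
  obtain ⟨hk3, hκ, -, hkL⟩ := h1 N (by omega)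
  obtain ⟨-, hU, -, -⟩ := h2 N (by omega)
  rw [← hk] at hk3 hκ hkL hU
  have hk0 : (0 : ℝ) < k := by exact_mod_cast (by omega : 0 < k)
  have hk1 : (1 : ℝ) ≤ k := by exact_mod_cast (by omega : 1 ≤ k)
  have hlog0 : (0 : ℝ) < Real.log N := by linarith
  have hs' : 2 ^ s ≤ k ^ (κ + 1) := by
    have : (2 : ℝ) ^ s ≤ (k : ℝ) ^ (κ + 1) := hs.trans hκ
    exact_mod_cast this
  have hL' : L ≤ k ^ (κ + 1) := by
    have : (L : ℝ) ≤ (k : ℝ) ^ (κ + 1) := hL.trans hκ
    exact_mod_cast this
  have hUk : Real.log N ^ U ≤ (k : ℝ) ^ (U + κ + 2) :=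
    hU.trans (pow_le_pow_right₀ hk1 (by omega))
  obtain ⟨x, hx⟩ : ∃ x : ℝ, x = ∏ i, ((autSet (b (t i)) (M (t i)) N).card : ℝ) := ⟨_, rfl⟩
  have hx0 : 0 ≤ x := by
    rw [hx]
    exact prod_nonneg fun _ _ => Nat.cast_nonneg _
  have hsub : ∀ a : Fin s → ℤ, Pool.Agent.R501.CP.Chowla B (κ + 1) (U + κ + 2) N k f α a → Small B κ U N f α a := by
    intro a hcon l I hI q hq1 hq2 r u v huv
    have hq' : q ≤ k ^ (κ + 1) := by
      have : (q : ℝ) ≤ (k : ℝ) ^ (κ + 1) := hq2.trans hκ
      exact_mod_cast this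
    refine (hcon l I hI q hq1 hq' r u v huv).trans ?_
    exact div_le_div_of_nonneg_left (Nat.cast_nonneg _) (by positivity) hUk
  have key : ∀ c ∈ H, (((Fintype.piFinset fun i => autSet (b (t i)) (M (t i)) N).filter fun v =>
      ¬ Small B κ U N f α (fun i => c i + γ i * v i)).card : ℝ) ≤ x / (k : ℝ) ^ (U + κ + 2) := by
    intro c hc
    have key := h0 N (by omega) k hk s L hs' hL' t c γ (hH c hc) hγ α hα f
    rw [Pool.Agent.R459.Fams.count_eq, Fintype.card_piFinset] at key
    simp only [← hset] at key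
    push_cast at key
    rw [← hx] at key
    refine le_trans ?_ key
    rw [Nat.cast_le]
    apply card_le_card
    intro m hm
    rw [mem_filter] at hm ⊢
    exact ⟨hm.1, fun hcon => hm.2 (hsub _ hcon)⟩
  have hbi : ((Fintype.piFinset fun i => autSet (b (t i)) (M (t i)) N).filter fun v =>
      ¬ ∀ c ∈ H, Small B κ U N f α (fun i => c i + γ i * v i)) ⊆
      H.biUnion fun c => (Fintype.piFinset fun i => autSet (b (t i)) (M (t i)) N).filter fun v =>
        ¬ Small B κ U N f α (fun i => c i + γ i * v i) := by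
    intro v hv
    rw [mem_filter] at hv
    obtain ⟨hv, h⟩ := hv
    push Not at h
    obtain ⟨c, hc, h⟩ := h
    rw [mem_biUnion]
    exact ⟨c, hc, mem_filter.2 ⟨hv, h⟩⟩
  rw [← hx]
  have h3 : (((Fintype.piFinset fun i => autSet (b (t i)) (M (t i)) N).filter fun v =>
      ¬ ∀ c ∈ H, Small B κ U N f α (fun i => c i + γ i * v i)).card : ℝ) ≤
      ∑ c ∈ H, (((Fintype.piFinset fun i => autSet (b (t i)) (M (t i)) N).filter fun v =>
        ¬ Small B κ U N f α (fun i => c i + γ i * v i)).card : ℝ) := by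
    have := (card_le_card hbi).trans card_biUnion_le
    exact_mod_cast this
  refine h3.trans ((sum_le_sum key).trans ?_)
  rw [sum_const, nsmul_eq_mul]
  have h4 : (H.card : ℝ) ≤ (k : ℝ) ^ (κ + 1) := hHc.trans hκ
  have h5 : (0 : ℝ) ≤ x / (k : ℝ) ^ (U + κ + 2) := by positivity
  calc (H.card : ℝ) * (x / (k : ℝ) ^ (U + κ + 2)) ≤ (k : ℝ) ^ (κ + 1) * (x / (k : ℝ) ^ (U + κ + 2)) :=
        mul_le_mul_of_nonneg_right h4 h5
    _ = x / (k : ℝ) ^ (U + 1) := by
        have hp : (k : ℝ) ^ (U + κ + 2) = (k : ℝ) ^ (κ + 1) * (k : ℝ) ^ (U + 1) := by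
          rw [← pow_add]
          congr 1
          omega
        rw [hp, ← mul_div_assoc, mul_div_mul_left _ _ (pow_ne_zero _ hk0.ne')]
    _ ≤ x / Real.log N ^ U := div_le_div_of_nonneg_left hx0 (by positivity) hU

end Pool.Agent.Results.MP_892e4c_nt.AutomaticConstants
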