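import Pool.Agent.R501.CP3

/-!
# The Liouville function at the values of arbitrary polynomials times linear factors, the constant terms of which are
integers with given digits in an arbitrary order

The analytic input is the theorem on correlations along such integers of the library (`Pool.Agent.R459.Fams2`, helper459).
-/

set_option autoImplicit false

namespace Pool.Agent.Results.MP_892e4c_nt.DigitPermutationConstants

open Finset

/-- The Liouville function on the integers, `λ(-m) = λ(m)` and `λ(0) = 0`. -/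
def lam (m : ℤ) : ℤ := if m = 0 then 0 else (-1) ^ ArithmeticFunction.cardFactors m.natAbs

/-- The integer with the digit `d (σ j)` at the place `j` in base `b`, for `j < k`: the digits `d` in the order `σ`. -/
def V (b : ℕ) {k : ℕ} (d : Fin k → ℕ) (σ : Equiv.Perm (Fin k)) : ℕ := ∑ j : Fin k, d (σ j) * b ^ (j : ℕ)

/-- The `d j`, `j < k`, are digits in base `b`, and no digit is taken at more than `(1 - η) k` places. -/
structure Spread (b k : ℕ) (η : ℝ) (d : Fin k → ℕ) : Prop where
  lt : ∀ j, d j < b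
  few : ∀ a, ((univ.filter fun j => d j = a).card : ℝ) ≤ (1 - η) * k

/-- The sum of `λ(F(n))` over the integers `n` with `u ≤ n ≤ v` and `n ≡ r mod q`, where `F` is the product of the
polynomial `f` and of the polynomials `α i T + a i`, `i ∈ I`. -/
noncomputable def lamSum {s : ℕ} (f : Polynomial ℤ) (α : Fin s → ℕ) (a : Fin s → ℤ) (I : Finset (Fin s)) (q : ℕ)
    (r u v : ℤ) : ℤ :=
  ∑ n ∈ (Icc u v).filter (fun n => n ≡ r [ZMOD q]),
    lam ((f * ∏ i ∈ I, (Polynomial.C (α i : ℤ) * Polynomial.X + Polynomial.C (a i))).eval n)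

/-- All the sums are small: for all `l`, all nonempty sets `I` of indices, all residue classes `r` modulo `q ≤ k ^ κ` and
all integers `u`, `v` with `α i |u| ≤ B N` and `α i |v| ≤ B N` for all `i ∈ I`, the sum of `λ(F(n))` over the `n` with
`u ≤ n ≤ v` and `n ≡ r mod q` is at most `N / k ^ U` in absolute value, where `F = f l * ∏ i ∈ I, (α i T + a i)`. -/
def Small (B κ U N k : ℕ) {s L : ℕ} (f : Fin L → Polynomial ℤ) (α : Fin s → ℕ) (a : Fin s → ℤ) : Prop :=
  ∀ l, ∀ I : Finset (Fin s), I.Nonempty → ∀ q : ℕ, 1 ≤ q → q ≤ k ^ κ → ∀ r u v : ℤ,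
    (∀ i ∈ I, (α i : ℤ) * |u| ≤ B * N ∧ (α i : ℤ) * |v| ≤ B * N) →
    |((lamSum (f l) α a I q r u v : ℤ) : ℝ)| ≤ N / (k : ℝ) ^ U

open Classical in
/-- Let `b ≥ 2`, `B`, `κ`, `U` and `η > 0` be fixed, let `k` be large, `N = b ^ k` and `2 ^ s ≤ k ^ κ`. For `i < s` let
`d i` be arbitrary `k` digits in base `b`, none of them at more than `(1 - η) k` places. Let `|c i| ≤ B N`, `γ i ≠ 0` with
`|γ i| ≤ B` and `α i ≥ 1` be arbitrary integers for `i < s`, and let `f l`, where `l` ranges over at most `k ^ κ` indices,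
be arbitrary polynomials with integer coefficients (of any degree). Then for all `s`-tuples `(σ 1, ..., σ s)` of
permutations of the `k` places, up to `(k!) ^ s / k ^ U` of them, the integers `a i = c i + γ i v i`, where `v i` has the
digits `d i` in the order `σ i`, have the following property: `|∑ λ(F(n))| ≤ N / k ^ U` for all `l` and all nonempty sets
`I` of indices, where `F = f l * ∏ i ∈ I, (α i T + a i)`, the sum over the `n ≡ r mod q` in an arbitrary interval `[u, v]`
with `α i |u|, α i |v| ≤ B N` for all `i ∈ I`, for all residue classes `r` modulo all `q ≤ k ^ κ`. -/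
theorem result (b B κ U : ℕ) (hb : 2 ≤ b) (η : ℝ) (hη : 0 < η) : ∃ k₀ : ℕ, ∀ k : ℕ, k₀ ≤ k → ∀ s L : ℕ,
    2 ^ s ≤ k ^ κ → L ≤ k ^ κ → ∀ d : Fin s → Fin k → ℕ, (∀ i, Spread b k η (d i)) →
    ∀ c γ : Fin s → ℤ, (∀ i, |c i| ≤ B * (b : ℤ) ^ k) → (∀ i, γ i ≠ 0 ∧ |γ i| ≤ B) → ∀ α : Fin s → ℕ, (∀ i, 1 ≤ α i) →
    ∀ f : Fin L → Polynomial ℤ,
      (((univ : Finset (Fin s → Equiv.Perm (Fin k))).filter fun σ =>
        ¬ Small B κ U (b ^ k) k f α (fun i => c i + γ i * (V b (d i) (σ i) : ℕ))).card : ℝ) ≤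
      (k.factorial : ℝ) ^ s / (k : ℝ) ^ U := by
  obtain ⟨k₀, h0⟩ := Pool.Agent.R501.CP.perm_chowla b B κ U hb η hη
  refine ⟨k₀, fun k hk s L hs hL d hd c γ hc hγ α hα f => ?_⟩
  have h1 := h0 k hk s L hs hL d (fun i => ⟨(hd i).lt, (hd i).few⟩) c γ hc hγ α hα f
  rw [Pool.Agent.R459.Fams.count_eq] at h1
  exact h1

end Pool.Agent.Results.MP_892e4c_nt.DigitPermutationConstants
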