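import Pool.Agent.R501.CP3

/-!
# The Liouville function at the values of arbitrary polynomials times linear factors with palindromic constant terms

The analytic input is the theorem on correlations along palindromes of the library (`Pool.Agent.R459.Fams2`, helper459).
-/

set_option autoImplicit false

namespace Pool.Agent.Results.MP_892e4c_nt.PalindromicConstants

open Finset

/-- The Liouville function on the integers, `λ(-m) = λ(m)` and `λ(0) = 0`. -/
def lam (m : ℤ) : ℤ := if m = 0 then 0 else (-1) ^ ArithmeticFunction.cardFactors m.natAbs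

/-- The palindromes with exactly `k` digits in base `b`: the integers `b ^ (k - 1) ≤ v < b ^ k` whose digits at the places
`j` and `k - 1 - j` are equal for all `j < k`. -/
def palindromes (b k : ℕ) : Finset ℕ :=
  (range (b ^ k)).filter fun v => b ^ (k - 1) ≤ v ∧ ∀ j < k, v / b ^ j % b = v / b ^ (k - 1 - j) % b

/-- The sum of `λ(F(n))` over the integers `n` with `u ≤ n ≤ v` and `n ≡ r mod q`, where `F` is the product of the
polynomial `f` and of the polynomials `α i T + a i`, `i ∈ I`. -/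
noncomputable def lamSum {s : ℕ} (f : Polynomial ℤ) (α : Fin s → ℕ) (a : Fin s → ℤ) (I : Finset (Fin s)) (q : ℕ)
    (r u v : ℤ) : ℤ :=
  ∑ n ∈ (Icc u v).filter (fun n => n ≡ r [ZMOD q]),
    lam ((f * ∏ i ∈ I, (Polynomial.C (α i : ℤ) * Polynomial.X + Polynomial.C (a i))).eval n)

/-- All the sums are small: for all `l`, all nonempty sets `I` of indices, all residue classes `r` modulo `q ≤ k ^ κ` and
all integers `u`, `v` with `α i |u| ≤ B N` and `α i |v| ≤ B N` for all `i ∈ I`, the sum of `λ(F(n))` over the `n` with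
`u ≤ n ≤ v` and `n ≡ r mod q` is at most `N / k ^ U` in absolute value, where `F = f l * ∏ i ∈ I, (α i T + a i)`. -/
def Small (B κ U N k : ℕ) {s L : ℕ} (f : Fin L → Polynomial ℤ) (α : Fin s → ℕ) (a : Fin s → ℤ) : Prop :=
  ∀ l, ∀ I : Finset (Fin s), I.Nonempty → ∀ q : ℕ, 1 ≤ q → q ≤ k ^ κ → ∀ r u v : ℤ,
    (∀ i ∈ I, (α i : ℤ) * |u| ≤ B * N ∧ (α i : ℤ) * |v| ≤ B * N) →
    |((lamSum (f l) α a I q r u v : ℤ) : ℝ)| ≤ N / (k : ℝ) ^ U

open Classical in
/-- Let `b ≥ 2`, `B`, `κ` and `U` be fixed, let `k` be large, `N = b ^ k` and `2 ^ s ≤ k ^ κ`. Let `|c i| ≤ B N`,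
`γ i ≠ 0` with `|γ i| ≤ B` and `α i ≥ 1` be arbitrary integers for `i < s`, and let `f l`, where `l` ranges over at most
`k ^ κ` indices, be arbitrary polynomials with integer coefficients (of any degree). Then for all `s`-tuples
`(v 1, ..., v s)` of palindromes with `k` digits in base `b`, up to a proportion of `1 / k ^ U` of them, the integers
`a i = c i + γ i v i` have the following property: `|∑ λ(F(n))| ≤ N / k ^ U` for all `l` and all nonempty sets `I` of
indices, where `F = f l * ∏ i ∈ I, (α i T + a i)`, the sum over the `n ≡ r mod q` in an arbitrary interval `[u, v]` with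
`α i |u|, α i |v| ≤ B N` for all `i ∈ I`, for all residue classes `r` modulo all `q ≤ k ^ κ`. -/
theorem result (b B κ U : ℕ) (hb : 2 ≤ b) : ∃ k₀ : ℕ, ∀ k : ℕ, k₀ ≤ k → ∀ s L : ℕ, 2 ^ s ≤ k ^ κ → L ≤ k ^ κ →
    ∀ c γ : Fin s → ℤ, (∀ i, |c i| ≤ B * (b : ℤ) ^ k) → (∀ i, γ i ≠ 0 ∧ |γ i| ≤ B) → ∀ α : Fin s → ℕ, (∀ i, 1 ≤ α i) →
    ∀ f : Fin L → Polynomial ℤ,
      (((Fintype.piFinset fun _ : Fin s => palindromes b k).filter fun v =>
        ¬ Small B κ U (b ^ k) k f α (fun i => c i + γ i * v i)).card : ℝ) ≤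
      ((palindromes b k).card : ℝ) ^ s / (k : ℝ) ^ U := by
  obtain ⟨k₀, h0⟩ := Pool.Agent.R501.CP.pal_chowla b B κ U hb
  refine ⟨k₀, fun k hk s L hs hL c γ hc hγ α hα f => ?_⟩
  have h1 := h0 k hk s L hs hL (palindromes b k) (fun v => by
    unfold palindromes Pool.Agent.TH872.Tr.IsPalindrome
    rw [mem_filter, mem_range]
    constructor
    · rintro ⟨g1, g2, g3⟩
      exact ⟨g2, g1, g3⟩
    · rintro ⟨g1, g2, g3⟩
      exact ⟨g2, g1, g3⟩) c γ hc hγ α hα f
  rw [Pool.Agent.R459.Fams.count_eq, Fintype.card_piFinset, prod_const, card_univ, Fintype.card_fin] at h1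
  push_cast at h1
  exact h1

end Pool.Agent.Results.MP_892e4c_nt.PalindromicConstants
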