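import Pool.Agent.R460.SL.Ap

set_option autoImplicit false

/-!
# The Liouville function at all quadratic polynomials with almost any given constant term in a thin class

For every modulus `q ≤ X ^ (1 / 2 - ρ)` with at most `(log X)^T` divisors, without any exceptional moduli, and every
residue class `c₀` modulo `q`, all but at most `X / (q (log X)^A)` of the integers `c`, `|c| ≤ X`, `c ≡ c₀ (mod q)`,
have the following property: for ALL quadratic polynomials `f(t) = a t² + b t + c` with `0 < |a| ≤ (log X)^κ`,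
`|b| ≤ (log X)^κ` and `gcd(b² - 4 a c, q) ≤ (log X)^T`, the sum of `λ(f(t))` over the `t ≤ y` in any progression
modulo any `s ≤ (log X)^κ` is at most `√X / (log X)^C`, for all `y ≤ √X`.

Proof (project `R460/SL`): the circle method in the class. On the minor arcs the sums over `t` in the classes modulo `q`
are estimated by Weyl's method. On the major arcs the modulus is lifted to `k q` and the values are sorted by their
greatest common divisor with `k q`; the characters modulo the quotient are separated into a few bad ones of large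
conductor, for which the complete sums of `χ(n - a t² - b t)` are small, and the others, for which the sums of `λ` are
small in mean square, by a decomposition of `λ` into bilinear sums and the theorem of Siegel-Walfisz-Davenport type.
-/

namespace Pool.Agent.Results.MP_892e4c_nt.QuadraticsThinClasses

open Finset

/-- The Liouville function on the integers: `λ(-m) = λ(m)` and `λ(0) = 0`. -/
def lam (v : ℤ) : ℤ := if v = 0 then 0 else (-1) ^ ArithmeticFunction.cardFactors v.natAbs

/-- The sum of `λ(a t² + b t + c)` over the `t`, `1 ≤ t ≤ y`, with `t ≡ r (mod s)`. -/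
def lamSum (a b c : ℤ) (s r y : ℕ) : ℤ :=
  ∑ t ∈ (Icc 1 y).filter (fun t : ℕ => t ≡ r [MOD s]), lam (a * (t : ℤ) ^ 2 + b * t + c)

/-- The conclusion for one constant term `c`: the bound for all quadratic polynomials with the constant term `c`,
all progressions `r` modulo `s ≤ (log X)^κ` and all `y ≤ √X`. -/
def Good (C T κ X q : ℕ) (c : ℤ) : Prop :=
  ∀ a b : ℤ, a ≠ 0 → (|a| : ℝ) ≤ Real.log X ^ κ → (|b| : ℝ) ≤ Real.log X ^ κ →
    (Int.gcd (b ^ 2 - 4 * a * c) q : ℝ) ≤ Real.log X ^ T →
    ∀ s r y : ℕ, 1 ≤ s → (s : ℝ) ≤ Real.log X ^ κ → y ^ 2 ≤ X →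
      |((lamSum a b c s r y : ℤ) : ℝ)| ≤ Real.sqrt X / Real.log X ^ C

open Classical in
/-- The number of the integers `c`, `|c| ≤ X`, `c ≡ c₀ (mod q)`, for which the conclusion fails. -/
noncomputable def exceptions (C T κ X q : ℕ) (c₀ : ℤ) : ℕ :=
  ((Icc (-(X : ℤ)) X).filter (fun c : ℤ => c ≡ c₀ [ZMOD q] ∧ ¬ Good C T κ X q c)).card

theorem result (ρ : ℝ) (hρ : 0 < ρ) (A C T κ : ℕ) :
    ∃ X₀ : ℕ, ∀ X : ℕ, X₀ ≤ X →
      ∀ q : ℕ, 1 ≤ q → (q : ℝ) ≤ (X : ℝ) ^ (1 / 2 - ρ) → (q.divisors.card : ℝ) ≤ Real.log X ^ T →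
      ∀ c₀ : ℤ, (exceptions C T κ X q c₀ : ℝ) ≤ X / (q * Real.log X ^ A) :=
  Pool.Agent.R460.SL.fin_ap ρ hρ A C T κ

end Pool.Agent.Results.MP_892e4c_nt.QuadraticsThinClasses
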